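import Pool.Agent.Q304.FP.Main

/-!
MP_ba1c1e_lc, Q1 (answer: no). In ZFC there is a non-meager filter `F` on the natural numbers such
that `F × F⁺` is not homeomorphic to `F⁺`.
-/

namespace Pool.Agent.Results.MP_ba1c1e_lc.ProductNotHomeo

open Pool.Agent.Q304.FP

/-- There is a proper filter `F` on `ℕ` containing all cofinite sets that is not a meager subset of
the Cantor set and such that `F × F⁺` is not homeomorphic to `F⁺`. -/
theorem result : ∃ F : Filter ℕ, F.NeBot ∧ F ≤ Filter.cofinite ∧ ¬ IsMeagre (fam F) ∧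
    IsEmpty ((fam F × pos F) ≃ₜ pos F) := by
  obtain ⟨F, h1, h2, h3, h4, _⟩ := exists_filter
  exact ⟨F, h1, h2, h3, h4⟩

end Pool.Agent.Results.MP_ba1c1e_lc.ProductNotHomeo
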